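import Mathlib
import Pool.Agent.Helper42.Th.Piece
import Pool.Agent.Helper89.GS2.Defs

/-!
The maximum principle for labelled graphs with two exceptional edges, one of which is constant.
-/

set_option autoImplicit false

namespace Pool.Agent.Helper89.GS2

open Pool.Agent.Helper42.Th

variable {E : Type} {Γ : CMap E} {δ ε : E} {Ω₁ Ω₂ : Type*} [LinearOrder Ω₁] [LinearOrder Ω₂]
  {f : E → Ω₁} {g : E → Ω₂} [Finite E]

/-- Both exceptional edges are positive. -/
lemma not_lt_lt (H : Harm Γ ε f g) (h1 : f (Γ.flip δ) = f δ) (h2 : g (Γ.flip δ) = g δ)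
    (h3 : f (Γ.flip ε) < f ε) (h4 : g (Γ.flip ε) < g ε) : False := by
  have K : Harm Γ δ f g := by
    refine ⟨H.f_rot, H.g_rot, fun d e1 e2 e3 => ?_, fun d e1 e2 e3 => ?_⟩
    · by_cases k1 : d = ε
      · rw [k1]
        exact h4.le
      by_cases k2 : d = Γ.flip ε
      · rw [k2, Γ.flip_flip] at e3
        exact absurd h3 (not_lt.mpr e3)
      exact H.pos d k1 k2 e3
    · by_cases k1 : d = ε
      · rw [k1] at e3
        exact absurd e3 h4.ne
      by_cases k2 : d = Γ.flip ε
      · rw [k2, Γ.flip_flip] at e3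
        exact absurd e3 h4.ne'
      exact H.str d k1 k2 e3
  have e1 := (K.ext h1.le h2.ge ε).2.1
  have e2 := (K.ext h1.le h2.ge (Γ.flip ε)).1
  exact absurd (e1.trans (h1.ge.trans e2)) (not_le.mpr h3)

/-- The walk from the end of `δ` to the end of `ε` at the maximal height. -/
lemma away_max (H : Harm Γ ε f g) (h3 : f (Γ.flip ε) ≤ f ε) (h4 : g ε ≤ g (Γ.flip ε)) {i : ℕ}
    (hi : (Γ.rot ^ i) δ = ε) {d e : E} (h : Γ.Away δ d e) :
    f d = f ε → f e = f ε ∨ f (Γ.flip ε) = f ε := by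
  induction h with
  | refl d => exact Or.inl
  | rot d e _ ih =>
    intro h
    apply ih
    rw [H.f_rot, h]
  | pass d e hd _ ih =>
    intro h
    by_cases hend : f (Γ.flip ε) = f ε
    · exact Or.inr hend
    · apply ih
      have hsp := H.spread {c | f c = f ε ∧ ∀ m : ℕ, (Γ.rot ^ m) δ ≠ c} ?_ ?_ ?_ d ⟨h, hd⟩
      · exact hsp.trans h
      · intro c
        constructor
        · rintro ⟨h1, h2⟩
          refine ⟨(H.f_rot c).symm.trans h1, fun m hm => h2 (m + 1) ?_⟩
          rw [pow_succ', Equiv.Perm.mul_apply, hm]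
        · rintro ⟨h1, h2⟩
          refine ⟨(H.f_rot c).trans h1, fun m hm => ?_⟩
          rcases Nat.eq_zero_or_pos m with rfl | hpos
          · have h3 : 0 < orderOf Γ.rot := orderOf_pos _
            apply h2 (orderOf Γ.rot - 1)
            apply Γ.rot.injective
            rw [← hm, ← Equiv.Perm.mul_apply, ← pow_succ',
              show orderOf Γ.rot - 1 + 1 = orderOf Γ.rot by omega, pow_orderOf_eq_one]
            rfl
          · apply h2 (m - 1)
            apply Γ.rot.injective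
            rw [← hm, ← Equiv.Perm.mul_apply, ← pow_succ', show m - 1 + 1 = m by omega]
      · rintro c ⟨h1, h2⟩
        constructor
        · rintro rfl
          exact h2 i hi
        · rintro rfl
          exact hend h1
      · rintro c ⟨h1, -⟩
        rw [h1]
        exact H.max h3 _

/-- Everything is constant: one of the two signs. -/
lemma flat_case (H : Harm Γ ε f g) (h1 : f (Γ.flip δ) = f δ) (hA : Adj Γ δ ε)
    (h3 : f (Γ.flip ε) ≤ f ε) (h4 : g ε ≤ g (Γ.flip ε)) : ∀ d, f d = f ε ∧ g d = g ε := by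
  obtain ⟨⟨i, hi⟩, hl, hw⟩ := hA
  have hrot : ∀ i : ℕ, ∀ d, f ((Γ.rot ^ i) d) = f d := by
    intro i d
    induction i with
    | zero => simp
    | succ i ih => rw [pow_succ', Equiv.Perm.mul_apply, H.f_rot, ih]
  have e1 : f (Γ.flip ε) = f ε := by
    have e2 : f (Γ.flip δ) = f ε := by rw [h1, ← hi, hrot]
    rcases away_max H h3 h4 hi hw e2 with h | h <;> exact h
  have hf : ∀ d, f d = f ε := by
    intro d
    obtain ⟨k1, k2, -, -⟩ := H.ext h3 h4 d
    rw [e1] at k1
    exact le_antisymm k2 k1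
  have hg : ∀ d, d ≠ ε → d ≠ Γ.flip ε → g (Γ.flip d) = g d := by
    intro d k1 k2
    obtain ⟨k3, k4⟩ := Harm.ne_flip (Γ := Γ) k1 k2
    have k5 := H.pos _ k3 k4 ((hf _).trans (hf _).symm).le
    rw [Γ.flip_flip] at k5
    exact le_antisymm (H.pos d k1 k2 ((hf _).trans (hf _).symm).le) k5
  -- around the vertex of `ε`
  obtain ⟨n, hn, hmin⟩ := Harm.first_return Γ.rot ε
  have key : ∀ i ≤ n, g ((Γ.rot ^ i) ε) = g ε := by
    intro i
    induction i with
    | zero => intro _; simp
    | succ i ih =>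
      intro hi
      have k1 : Γ.rot ((Γ.rot ^ i) ε) = (Γ.rot ^ (i + 1)) ε := by
        rw [← Equiv.Perm.mul_apply, ← pow_succ']
      rw [← ih (by omega), ← H.g_rot ((Γ.rot ^ i) ε), k1]
      exact (hg _ (hmin i (by omega)) (hl (i + 1))).symm
  have hn' : Γ.rot ((Γ.rot ^ n) ε) = ε := by
    rw [← Equiv.Perm.mul_apply, ← pow_succ']
    exact hn
  have h5 : g (Γ.flip ε) = g ε := by
    rw [← key n le_rfl, ← H.g_rot ((Γ.rot ^ n) ε), hn']
  intro d
  obtain ⟨-, -, k1, k2⟩ := H.ext h3 h4 d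
  rw [h5] at k2
  exact ⟨hf d, le_antisymm k2 k1⟩

/-- Everything is constant if the edges have a common vertex. -/
lemma flat_adj (H : Harm Γ ε f g) (h1 : f (Γ.flip δ) = f δ) (h2 : g (Γ.flip δ) = g δ)
    (hA : Adj Γ δ ε) : ∀ d, f d = f ε ∧ g d = g ε := by
  have op : f ε ≤ f (Γ.flip ε) → g (Γ.flip ε) ≤ g ε → ∀ d, f d = f ε ∧ g d = g ε := by
    intro h3 h4 d
    have := flat_case H.op (congrArg OrderDual.toDual h1) hA h3 h4 d
    exact this
  rcases lt_trichotomy (f (Γ.flip ε)) (f ε) with h3 | h3 | h3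
  · rcases le_or_gt (g ε) (g (Γ.flip ε)) with h4 | h4
    · exact flat_case H h1 hA h3.le h4
    · exact (not_lt_lt H h1 h2 h3 h4).elim
  · rcases le_total (g ε) (g (Γ.flip ε)) with h4 | h4
    · exact flat_case H h1 hA h3.le h4
    · exact op h3.ge h4
  · rcases lt_or_ge (g ε) (g (Γ.flip ε)) with h4 | h4
    · exact (not_lt_lt H.op (congrArg OrderDual.toDual h1) (congrArg OrderDual.toDual h2)
        h3 h4).elim
    · exact op h3.le h4

/-- Everything is constant. -/
theorem flat (H : Harm Γ ε f g) (h1 : f (Γ.flip δ) = f δ) (h2 : g (Γ.flip δ) = g δ)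
    (hN : Near Γ δ ε) : ∀ d, f d = f ε ∧ g d = g ε := by
  rcases hN with rfl | hA | hA
  · intro d
    obtain ⟨k1, k2, k3, k4⟩ := H.ext h1.le h2.ge d
    rw [h1] at k1
    rw [h2] at k4
    exact ⟨le_antisymm k2 k1, le_antisymm k4 k3⟩
  · exact flat_adj H h1 h2 hA
  · exact fun d => (flat_adj H.dual h2 h1 hA d).symm

end Pool.Agent.Helper89.GS2
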