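import Mathlib
import Pool.Agent.Helper42.GS.Main
import Pool.Agent.Helper89.GS2.Flat

/-!
Diagrams the crossing balls of which are filled with solid tori, pieces and generalized solid
tori, one ball being filled with any slope.
-/

set_option autoImplicit false

namespace Pool.Agent.Helper89.GS2

open Pool.Agent.Helper42.Th
open Pool.Agent.Helper31.OrderAct
open Pool.Agent.Helper71.Rot
open Pool.Agent.Helper71.Tree
open Pool.Agent.Helper42.PF
open Pool.Agent.Helper42.GS (Torsion exists_fix_of_torsion like_spec mem_closure_D mem_closure_M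
  words_comm all_fix)

section fixed

variable {Ω : Type*} [CompleteLinearOrder Ω] {G : Type*} [Group G] (ρ : G →* (Ω ≃o Ω))
  {E : Type} {Γ : CMap E} (L : Lab G Γ) {δ ε : E} {P : Set E} {F : E → Set G}
  {m' a' : E → G}

/-- The values of the labels at a fixed point of the peripheral elements of the ball of `δ`. -/
lemma harm_eps (hP : ∀ d, d ≠ δ → d ≠ Γ.flip δ → d ∈ P ∨ Γ.flip d ∈ P)
    (hw : ∀ d ∈ P, Words L ε d (m' d) (a' d))
    (hF : ∀ d ∈ P, FillSpec true (some 0) none (ρ (m' d)) (ρ (a' d)) (ρ '' F d)) {z : Ω}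
    (h3 : lx L ρ (Γ.flip δ) z = lx L ρ δ z) (h4 : ly L ρ (Γ.flip δ) z = ly L ρ δ z) :
    Harm Γ ε (fun d => lx L ρ d z) (fun d => ly L ρ d z) := by
  have hrule : ∀ d ∈ P, d ≠ ε → ∀ z, (z ≤ ρ (L.D d) z → z ≤ ρ (L.M d) z) ∧
      (ρ (L.D d) z ≤ z → ρ (L.M d) z ≤ z) ∧ (ρ (L.M d) z = z → ρ (L.D d) z = z) := by
    intro d hd hne z
    have h1 := hF d hd
    obtain ⟨e1, e2⟩ : m' d = L.M d ∧ a' d = L.D d := by
      rcases hw d hd with h | h
      · exact h
      · exact absurd h.1 hne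
    rw [e1, e2] at h1
    have hcd : ρ (L.M d) * ρ (L.D d) = ρ (L.D d) * ρ (L.M d) := by
      rw [← map_mul, ← map_mul]
      exact congrArg ρ (comm_MD L d)
    have h2 := (h1.bd hcd).lower 0 rfl
    have h3 := h1.str hcd rfl 0 rfl z
    rw [neg_zero, zpow_zero, one_mul] at h2 h3
    exact ⟨fun h => (h2.up z h).1, fun h => (h2.dn z h).1, h3⟩
  have hne : ∀ {d}, d ≠ Γ.flip ε → Γ.flip d ≠ ε := fun h1 h2 => h1 (by rw [← h2, Γ.flip_flip])
  refine ⟨?_, ?_, ?_, ?_⟩
  · intro d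
    change ρ (L.x (Γ.rot d)) z = ρ (L.x d) z
    rw [L.x_rot]
  · intro d
    change ρ (L.y (Γ.flip (Γ.rot d))) z = ρ (L.y d) z
    rw [L.y_rot]
  · intro d h1 h2 h5
    by_cases k1 : d = δ
    · rw [k1]
      exact h4.le
    by_cases k2 : d = Γ.flip δ
    · rw [k2, Γ.flip_flip]
      exact h4.ge
    rcases hP d k1 k2 with hd | hd
    · exact (up_M L ρ).mp ((hrule d hd h1 z).1 ((up_D L ρ).mpr h5))
    · have h6 := (dn_M L ρ (d := Γ.flip d) (z := z)).mp ((hrule _ hd (hne h2) z).2.1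
        ((dn_D L ρ).mpr (by
          rw [Γ.flip_flip]
          exact h5)))
      rwa [Γ.flip_flip] at h6
  · intro d h1 h2 h5
    change ly L ρ (Γ.flip d) z = ly L ρ d z at h5
    by_cases k1 : d = δ
    · rw [k1]
      exact h3
    by_cases k2 : d = Γ.flip δ
    · rw [k2, Γ.flip_flip]
      exact h3.symm
    rcases hP d k1 k2 with hd | hd
    · have h6 := (hrule d hd h1 z).2.2 (le_antisymm ((dn_M L ρ).mpr h5.ge) ((up_M L ρ).mpr h5.le))
      rw [← X_D L ρ d z, h6]
    · have h6 := (hrule _ hd (hne h2) z).2.2 (le_antisymm ((dn_M L ρ).mpr (by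
        rw [Γ.flip_flip]
        exact h5.le)) ((up_M L ρ).mpr (by
        rw [Γ.flip_flip]
        exact h5.ge)))
      have h7 := X_D L ρ (Γ.flip d) z
      rw [Γ.flip_flip, h6] at h7
      exact h7.symm

/-- A fixed point of the peripheral elements of the ball of `δ` is a fixed point of all
elements. -/
lemma fix_elts [Finite E] (hN : Near Γ δ ε)
    (hP : ∀ d, d ≠ δ → d ≠ Γ.flip δ → d ∈ P ∨ Γ.flip d ∈ P)
    (hw : ∀ d ∈ P, Words L ε d (m' d) (a' d))
    (hF : ∀ d ∈ P, FillSpec true (some 0) none (ρ (m' d)) (ρ (a' d)) (ρ '' F d)) {z : Ω}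
    (hD : ρ (L.D δ) z = z) (hM : ρ (L.M δ) z = z) :
    ∀ g ∈ Subgroup.closure (L.elts ∪ ⋃ d ∈ P, F d), ρ g z = z := by
  have h3 : lx L ρ (Γ.flip δ) z = lx L ρ δ z := by
    have h := X_D L ρ δ z
    rwa [hD] at h
  have h4 : ly L ρ (Γ.flip δ) z = ly L ρ δ z := by
    have h := Y_M L ρ δ z
    rwa [hM] at h
  have H := flat (harm_eps ρ L hP hw hF h3 h4) h3 h4 hN
  have hX1 : ∀ d, ρ (L.x d) z = z := by
    obtain ⟨c, hc⟩ := L.x_one
    intro d
    have h1 : lx L ρ d z = lx L ρ c z := (H d).1.trans (H c).1.symm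
    change ρ (L.x d) z = ρ (L.x c) z at h1
    rw [h1, hc, map_one]
    rfl
  have hY1 : ∀ d, ρ (L.y d) z = z := by
    obtain ⟨c, hc⟩ := L.y_one
    intro d
    have h1 : ly L ρ d z = ly L ρ c z := (H d).2.trans (H c).2.symm
    change ρ (L.y d) z = ρ (L.y c) z at h1
    rw [h1, hc, map_one]
    rfl
  have hDd : ∀ d, ρ (L.D d) z = z := by
    intro d
    rw [Lab.D, map_mul, map_inv, RelIso.mul_apply, hX1]
    exact inv_fix (hX1 _)
  have hMd : ∀ d, ρ (L.M d) z = z := by
    intro d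
    rw [Lab.M, map_mul, map_inv, RelIso.mul_apply, hY1]
    exact inv_fix (hY1 _)
  have hma : ∀ d ∈ P, ρ (m' d) z = z ∧ ρ (a' d) z = z := by
    intro d hd
    rcases hw d hd with ⟨e1, e2⟩ | ⟨-, i, j, k, l, -, e1, e2⟩
    · rw [e1, e2]
      exact ⟨hMd d, hDd d⟩
    · rw [e1, e2, map_mul, map_mul, map_zpow, map_zpow, map_zpow, map_zpow, RelIso.mul_apply,
        RelIso.mul_apply, zpow_fix _ (hMd d), zpow_fix _ (hDd d), zpow_fix _ (hMd d),
        zpow_fix _ (hDd d)]
      exact ⟨rfl, rfl⟩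
  intro g hg
  induction hg using Subgroup.closure_induction with
  | mem y hy =>
    rcases hy with (⟨d, rfl⟩ | ⟨d, rfl⟩) | hy
    · exact hX1 d
    · exact hY1 d
    · obtain ⟨d, hd⟩ := Set.mem_iUnion.mp hy
      obtain ⟨hd1, hd2⟩ := Set.mem_iUnion.mp hd
      exact (hF d hd1).fix z (hma d hd1).1 (hma d hd1).2 _ ⟨y, hd2, rfl⟩
  | one => rw [map_one]; rfl
  | mul a b _ _ ha hb => rw [map_mul, RelIso.mul_apply, hb, ha]
  | inv a _ ha => rw [map_inv]; exact inv_fix ha

end fixed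

section spec

variable {G : Type*} [Group G]

/-- What a filling means for the action. -/
theorem spec_of_fill {Ω : Type*} [CompleteLinearOrder Ω] (ρ : G →* (Ω ≃o Ω)) {m a : G}
    {S : Set G} (h : Fill m a S) : FillSpec true (some 0) none (ρ m) (ρ a) (ρ '' S) := by
  induction h with
  | solid m a d c hd hc h =>
    rw [Set.image_empty]
    refine solid_spec (d := d) (c := c) (by exact_mod_cast hd) ?_ ?_ ?_
    · intro k' hk'
      obtain rfl := Option.some_injective _ hk'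
      refine ⟨by simp, fun _ h2 => ?_⟩
      rw [zero_mul] at h2
      exact absurd (by exact_mod_cast h2.symm) hc.ne'
    · intro k' hk'
      exact absurd hk' (by simp)
    · rw [zpow_natCast, zpow_natCast, ← map_pow, ← map_pow, h]
  | cone m a Γ L δ hl hb P F hP hF P₁ Q₁ P₂ Q₂ hP₁ hQ₁ hP₂ hQ₂ hdet hm ha ih =>
    have hps := lab_spec L ρ hl hb hP (fun d hd => ih d hd)
    have := PieceSpec.glue (strict := true) (lo := some 0) (hi := none) hps (P₁ := P₁) (Q₁ := Q₁)
      (P₂ := P₂) (Q₂ := Q₂) (by exact_mod_cast hP₂) (by exact_mod_cast hQ₂)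
      (by exact_mod_cast hdet) (by
        intro k' hk'
        obtain rfl := Option.some_injective _ hk'
        rw [zero_mul, zero_mul]
        exact ⟨by exact_mod_cast hP₁, by exact_mod_cast hQ₁⟩) (by
        intro k' hk'
        exact absurd hk' (by simp))
    rw [hm, ha, map_mul, map_mul, map_pow, map_pow, map_pow, map_pow]
    simpa only [zpow_natCast] using this
  | like m a Γ L δ ε hN P F hP m' a' hw hF p q r s hdet hm ha d c hd hc h ih =>
    have hDM : Commute (L.D δ) (L.M δ) := (comm_MD L δ).symm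
    have hDK := mem_closure_D L (⋃ d ∈ P, F d) δ
    have hMK := mem_closure_M L (⋃ d ∈ P, F d) δ
    have hcomm : Commute m a := by
      rw [hm, ha]
      exact words_comm hDM p q r s
    refine like_spec ρ hcomm ?_ ?_ hd hc h ?_
    · rw [hm]
      exact mul_mem (zpow_mem hDK _) (zpow_mem hMK _)
    · rw [ha]
      exact mul_mem (zpow_mem hDK _) (zpow_mem hMK _)
    · intro z h1 h2
      rw [hm, map_mul, map_zpow, map_zpow] at h1
      rw [ha, map_mul, map_zpow, map_zpow] at h2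
      obtain ⟨h3, h4⟩ := fix_of_words (hDM.map ρ) hdet h1 h2
      exact fix_elts ρ L hN hP hw (fun d hd => ih d hd) h3 h4

end spec

section main

variable {E : Type} [Finite E] {G : Type*} [Group G] (Γ : CMap E) (L : Lab G Γ) (δ ε : E)
  (P : Set E) (F : E → Set G) (m' a' : E → G) (F₀ : Set G)

/-- The group fixes a point of the order of its lower sets which is fixed by the peripheral
elements. -/
lemma fix_group {Ω : Type*} [CompleteLinearOrder Ω] (ρ : G →* (Ω ≃o Ω)) (hN : Near Γ δ ε)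
    (hP : ∀ d, d ≠ δ → d ≠ Γ.flip δ → d ∈ P ∨ Γ.flip d ∈ P)
    (hw : ∀ d ∈ P, Words L ε d (m' d) (a' d)) (hF : ∀ d ∈ P, Fill (m' d) (a' d) (F d))
    (hgen : Subgroup.closure ((L.elts ∪ ⋃ d ∈ P, F d) ∪ F₀) = ⊤) {z : Ω}
    (hD : ρ (L.D δ) z = z) (hM : ρ (L.M δ) z = z) (h₀ : ∀ g ∈ F₀, ρ g z = z) (g : G) :
    ρ g z = z := by
  have hall := fix_elts ρ L hN hP hw (fun d hd => spec_of_fill ρ (hF d hd)) hD hM
  have hg : g ∈ Subgroup.closure ((L.elts ∪ ⋃ d ∈ P, F d) ∪ F₀) := by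
    rw [hgen]
    trivial
  induction hg using Subgroup.closure_induction with
  | mem y hy =>
    rcases hy with hy | hy
    · exact hall y (Subgroup.subset_closure hy)
    · exact h₀ y hy
  | one => rw [map_one]; rfl
  | mul a b _ _ ha hb => rw [map_mul, RelIso.mul_apply, hb, ha]
  | inv a _ ha => rw [map_inv]; exact inv_fix ha

/-- The main theorem. -/
theorem main (hN : Near Γ δ ε) (hP : ∀ d, d ≠ δ → d ≠ Γ.flip δ → d ∈ P ∨ Γ.flip d ∈ P)
    (hw : ∀ d ∈ P, Words L ε d (m' d) (a' d)) (hF : ∀ d ∈ P, Fill (m' d) (a' d) (F d))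
    (h : (ε = δ ∧ Fill (L.M δ) (L.D δ) F₀) ∨ ∃ p q r s : ℤ, p * s ≠ q * r ∧
      Fill (L.D δ ^ p * L.M δ ^ q) (L.D δ ^ r * L.M δ ^ s) F₀ ∧
      Torsion ((L.elts ∪ ⋃ d ∈ P, F d) ∪ F₀) (L.D δ ^ p * L.M δ ^ q))
    (hgen : Subgroup.closure ((L.elts ∪ ⋃ d ∈ P, F d) ∪ F₀) = ⊤) :
    ¬ (Nontrivial G ∧ ∃ _ : LinearOrder G, ∀ f g h : G, g ≤ h → f * g ≤ f * h) := by
  rintro ⟨hnt, ⟨ho, hmul⟩⟩
  set ρ := cutHom hmul with hρ
  have hIic : ∀ u v : G, ρ u (LowerSet.Iic v) = LowerSet.Iic (u * v) := by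
    intro u v
    ext w
    change w ∈ cutHom hmul u (LowerSet.Iic v) ↔ w ∈ LowerSet.Iic (u * v)
    rw [mem_cutHom]
    change u⁻¹ * w ≤ v ↔ w ≤ u * v
    constructor
    · intro h
      have := hmul u _ _ h
      rwa [mul_inv_cancel_left] at this
    · intro h
      have := hmul u⁻¹ _ _ h
      rwa [inv_mul_cancel_left] at this
  -- there is a point between two elements which is fixed by the group
  obtain ⟨z, hall, ⟨t, ht⟩, ⟨s, hs⟩⟩ : ∃ z : LowerSet G, (∀ g : G, ρ g z = z) ∧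
      (∃ t : G, t ∈ z) ∧ ∃ s : G, z ≤ LowerSet.Iic s := by
    rcases h with ⟨he, h⟩ | ⟨p, q, r, s, hdet, hfill, htors⟩
    · refine ⟨LowerSet.Iic 1, ?_, ⟨1, le_refl (1 : G)⟩, 1, le_rfl⟩
      set z : LowerSet G := LowerSet.Iic 1
      classical
      have h1 : ∀ d, d ∈ insert δ P ∨ Γ.flip d ∈ insert δ P := by
        intro d
        by_cases e1 : d = δ
        · exact Or.inl (Or.inl e1)
        by_cases e2 : d = Γ.flip δ
        · right
          left
          rw [e2, Γ.flip_flip]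
        · exact (hP d e1 e2).imp Or.inr Or.inr
      have h2 : ∀ d ∈ insert δ P, FillSpec true (some 0) none (ρ (L.M d)) (ρ (L.D d))
          (ρ '' (fun e => if e = δ then F₀ else F e) d) := by
        intro d hd
        by_cases e1 : d = δ
        · subst e1
          simpa using spec_of_fill ρ h
        · have h3 : d ∈ P := hd.resolve_left e1
          rcases hw d h3 with ⟨k1, k2⟩ | ⟨k1, -⟩
          · have h4 := spec_of_fill ρ (hF d h3)
            rw [k1, k2] at h4
            simpa [e1] using h4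
          · exact absurd (k1.trans he) e1
      obtain ⟨h3, h4⟩ := all_fix L ρ h1 h2 z δ
      refine fix_group Γ L δ ε P F m' a' F₀ ρ hN hP hw hF hgen h3 h4 ?_
      intro g hg
      exact (spec_of_fill ρ h).fix z h4 h3 _ ⟨g, hg, rfl⟩
    · have hDM : Commute (L.D δ) (L.M δ) := (comm_MD L δ).symm
      obtain ⟨z, hz, ⟨g₁, -, h1⟩, ⟨g₂, -, h2⟩⟩ := exists_fix_of_torsion ρ (S := _)
        (by rw [hgen]; trivial) htors (LowerSet.Iic (1 : G))
      have hcz : ρ (L.D δ ^ r * L.M δ ^ s) z = z := by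
        have h3 := (spec_of_fill ρ hfill).str
          ((words_comm hDM p q r s).map ρ).eq rfl 0 rfl z
        rw [neg_zero, zpow_zero, one_mul] at h3
        exact h3 hz
      obtain ⟨hD, hM⟩ : ρ (L.D δ) z = z ∧ ρ (L.M δ) z = z := by
        refine fix_of_words (hDM.map ρ) hdet (w := z) ?_ ?_
        · rw [← map_zpow, ← map_zpow, ← map_mul]
          exact hz
        · rw [← map_zpow, ← map_zpow, ← map_mul]
          exact hcz
      refine ⟨z, fix_group Γ L δ ε P F m' a' F₀ ρ hN hP hw hF hgen hD hM ?_, ⟨g₁, ?_⟩, ⟨g₂, ?_⟩⟩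
      · intro g hg
        exact (spec_of_fill ρ hfill).fix z hz hcz _ ⟨g, hg, rfl⟩
      · rw [hIic, mul_one] at h1
        exact h1 (le_refl g₁)
      · rw [hIic, mul_one] at h2
        exact h2
  have htop : ∀ g : G, g ∈ z := by
    intro g
    rw [← hall (g * t⁻¹)]
    change g ∈ cutHom hmul (g * t⁻¹) z
    rw [mem_cutHom]
    simpa using ht
  have hle : ∀ g : G, g ≤ s := fun g => hs (htop g)
  have key : ∀ u v : G, u ≤ v := by
    intro u v
    have h1 := hmul (s * v⁻¹)⁻¹ _ _ ((hle (s * v⁻¹ * u)).trans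
      (le_of_eq (by rw [inv_mul_cancel_right]) : s ≤ s * v⁻¹ * v))
    rwa [inv_mul_cancel_left, inv_mul_cancel_left] at h1
  obtain ⟨u, v, huv⟩ := exists_pair_ne G
  exact huv (le_antisymm (key u v) (key v u))

end main

end Pool.Agent.Helper89.GS2
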